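import Mathlib
import Pool.Agent.Q286.AP.Core
import Pool.Agent.Y532.SC.Deg
import Pool.Agent.H82R3.Task469J

set_option autoImplicit false

/-!
# Zeros near the edges of the critical strip: definitions and separate tasks
-/

open Finset MeasureTheory

namespace Pool.Agent.Q286.NE

open Pool.Agent.H469R10.HO Pool.Agent.Q286.AP
open Pool.Agent.Y532.SC (One)
open Pool.Agent.H82R3.T469J (mm)

/-- the triangle -/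
noncomputable def tri (t : ℝ) : ℝ := max (1 - |t|) 0

/-- the source in exponential coordinates -/
noncomputable def om (t : ℝ) : ℝ := ∑' k : ℕ, 1 / ((k : ℝ) + 2) ^ 5 * tri (2 ^ (k + 2) * t)

/-- the boundary source -/
noncomputable def rr (c : ℝ) (m : ℕ) (x : ℝ) : ℝ := if 0 < x then c * x ^ m * om (Real.log x) else 0

/-- cutoff in exponential coordinates: `0` for `t ≤ log (3/2)`, `1` for `t ≥ log 2` -/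
noncomputable def psi (t : ℝ) : ℝ :=
  Real.smoothTransition ((t - Real.log (3 / 2)) / (Real.log 2 - Real.log (3 / 2)))

/-- the outer part of the Mellin transform -/
noncomputable def EE (c lam : ℝ) (m : ℕ) (α : ℕ → ℝ) (w : ℂ) : ℂ :=
  ∫ t : ℝ, ((psi t * Th c lam α (Real.exp t) * Real.exp (-(m * t)) : ℝ) : ℂ) * Complex.exp (w * t)

/-- TASK RSC. -/
def S_RSC : Prop := ∀ (c : ℝ) (m : ℕ), Rsc m (rr c m)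

/-- TASK PP: the cosine coefficients of the source. -/
def S_PP : Prop := ∃ C₀ : ℝ, 0 < C₀ ∧ ∀ m : ℕ, ∃ C₁ : ℝ, 0 < C₁ ∧ ∀ c : ℝ, 0 ≤ c → ∀ j : ℕ,
  |PP (rr c m) j| ≤ c * (C₀ / ((1 + (j : ℝ)) * Real.log (2 + j) ^ 5) + C₁ / (1 + (j : ℝ)) ^ 2)

/-- TASK M: lower bound for the two sided Laplace transform of the source. -/
def S_M : Prop := ∃ a : ℝ, 0 < a ∧ ∀ m : ℕ, ∃ T₀ : ℝ, 2 ≤ T₀ ∧ ∀ w : ℂ, |w.re| ≤ m → T₀ ≤ |w.im| →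
  a / (|w.im| * Real.log |w.im| ^ 5) ≤
    ‖∫ t in (-(Real.log (4 / 3)))..(Real.log (4 / 3)), (om t : ℂ) * Complex.exp (w * t)‖

/-- TASK UP: local upper bound for the number of zeros. -/
def S_UP : Prop := ∃ K : ℝ, 0 < K ∧ ∀ (lam nu Q ε : ℝ) (g : ℕ → ℝ) (F : ℂ → ℂ), 5 ≤ lam → 0 ≤ nu → nu ≤ 1 / 2 →
  0 < Q → One lam nu Q ε g F → ∃ T₀ : ℝ, 2 ≤ T₀ ∧ ∀ t : ℝ, T₀ ≤ t → ∀ S : Finset ℂ,
    (∀ z ∈ S, F z = 0 ∧ 0 ≤ z.re ∧ z.re ≤ 1 ∧ |z.im - t| ≤ 1) →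
    ∑ z ∈ S, (analyticOrderNatAt F z : ℝ) ≤ K * lam * Real.log t

/-- TASK LOW: local lower bound for the number of zeros. -/
def S_LOW : Prop := ∃ δ : ℝ, 0 < δ ∧ ∀ (lam nu Q ε : ℝ) (g : ℕ → ℝ) (F : ℂ → ℂ), 5 ≤ lam → 0 ≤ nu → nu ≤ 1 / 2 →
  0 < Q → One lam nu Q ε g F → ∃ T₀ : ℝ, 2 ≤ T₀ ∧ ∀ t : ℝ, T₀ ≤ t → ∃ S : Finset ℂ,
    (∀ z ∈ S, F z = 0 ∧ 0 ≤ z.re ∧ z.re ≤ 1 ∧ |z.im - t| ≤ 10) ∧
    δ * lam * Real.log t ≤ ∑ z ∈ S, (analyticOrderNatAt F z : ℝ)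

/-- TASK MS: mean square of the outer part. -/
def S_MS : Prop := ∃ C : ℝ, 0 < C ∧ ∀ (c lam : ℝ) (α : ℕ → ℝ), 0 < c → 1 ≤ lam → Summable (fun n => |α n|) →
  ∀ (m l : ℕ) (N : ℝ), (∀ S : Finset ℕ, QQ (mm l) S (jj c lam) α ≤ N) → ∀ ξ : ℝ, ξ + 2 ≤ m →
  ∀ s : ℝ, (s = 1 ∨ s = -1) →
    ∫ τ in ((2 : ℝ) ^ l / 2)..(4 * 2 ^ l), ‖EE c lam m α ((ξ : ℂ) + ((s * τ : ℝ) : ℂ) * Complex.I)‖ ^ 2 ≤
      C * ((m : ℝ) + 1) ^ 2 * (3 / 2 : ℝ) ^ (-(2 * (m - ξ))) * N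

end Pool.Agent.Q286.NE
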